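import Pool.Agent.Helper89.FA.Main
import Pool.Agent.Helper37.SP.Bridge
import Pool.Agent.Helper7.SP.ExistsMax
import Pool.Agent.Helper82.SP.Crit
import Pool.Agent.Helper36.SP.NoPair
import Pool.Agent.Helper84.SP.Tails
import Pool.Agent.Helper40.SP.PHat2
import Pool.Agent.Helper83.SP.T3
import Pool.Agent.Helper72.SP.E4
import Pool.Agent.Helper30.SP.FactT3a
import Pool.Agent.Helper35.SP.FactsM
import Pool.Agent.Helper35.SP.FactsR
import Pool.Agent.Helper94.SP.Facts
import Pool.Agent.Helper8.SP.FactT35
import Pool.Agent.Helper50.SP.FactG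
import Pool.Agent.Helper91.SP.Values
import Pool.Agent.Helper44.SP.RegionA
import Pool.Agent.Helper68.SP.Node104
import Pool.Agent.Helper91.SP.SmallCoords
import Pool.Agent.Helper72.SP.ThreeDim
import Pool.Agent.Helper94.SP.LogConc
import Pool.Agent.Helper23.SP.NodesX2
import Pool.Agent.Helper91.SP.Crossing
import Pool.Agent.Helper97.SP.E4Facts

/-! All modules of project SP except the wave facts. -/
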