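import Pool.Agent.Helper89.SP.Base
import Pool.Agent.Helper95.SP.Wave

/-!
Case analysis: a maximiser is either `f_n` or not better than `f₃`.
-/

set_option autoImplicit false

open MeasureTheory Set Real Slab

namespace Pool.Agent.Helper89.SP

lemma asq_nil : sq [] = 0 := by simp [sq]
lemma asq_cons (x : ℝ) (l : List ℝ) : sq (x :: l) = x ^ 2 + sq l := by simp [sq]
lemma asq_append (l l' : List ℝ) : sq (l ++ l') = sq l + sq l' := by simp [sq]
lemma asq_replicate (k : ℕ) (x : ℝ) : sq (List.replicate k x) = k * x ^ 2 := by simp [sq]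
lemma asq_nonneg' (l : List ℝ) : 0 ≤ sq l := by
  unfold sq
  apply List.sum_nonneg
  intro y hy
  obtain ⟨z, -, rfl⟩ := List.mem_map.mp hy
  positivity
lemma asq_perm {l l' : List ℝ} (h : l.Perm l') : sq l = sq l' := (h.map _).sum_eq

lemma asq_pos_of_mem {l : List ℝ} {y : ℝ} (hy : y ∈ l) (h : 0 < y) : 0 < sq l := by
  induction l with
  | nil => simp at hy
  | cons x l ih =>
    rw [asq_cons]
    rcases List.mem_cons.mp hy with rfl | hy
    · have := asq_nonneg' l; positivity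
    · have := ih hy; positivity

/-- the competitors -/
lemma competitor {n m : ℕ} {t : ℝ} {L : List ℝ} (h : MaxL n t L) (hm : 1 ≤ m) (hmn : m ≤ n) :
    T (List.replicate m (1 / √(m : ℝ)) ++ List.replicate (n - m) 0) t ≤ T L t := by
  apply h.best
  · simp; omega
  · intro x hx
    rcases List.mem_append.mp hx with hx | hx
    · rw [List.eq_of_mem_replicate hx]; positivity
    · rw [List.eq_of_mem_replicate hx]
  · rw [asq_append, asq_replicate, asq_replicate]
    have : (0:ℝ) < m := by exact_mod_cast hm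
    rw [div_pow, Real.sq_sqrt this.le]
    field_simp
    simp

lemma aT_nonneg (L : List ℝ) (t : ℝ) : 0 ≤ T L t := by
  have := P_nonneg L t
  unfold P at this
  unfold T
  rw [mul_div_assoc]
  linarith

variable {n : ℕ} {t : ℝ} {L : List ℝ}

lemma ge_Mf (h : MaxL n t L) (hn : 4 ≤ n) (ht : 1.02 ≤ t) : Mf t ≤ T L t := by
  rcases le_total t √3 with h3 | h3
  · have h1 := competitor h (m := 3) (by norm_num) (by omega)
    have h2 := T_f3 (k := n - 3) (t := t) (by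
      rw [div_le_iff₀ (by positivity)]
      nlinarith [Real.sq_sqrt (show (0:ℝ) ≤ 3 by norm_num), Real.sqrt_nonneg 3]) h3
    rw [show ((3:ℕ):ℝ) = 3 by norm_num, h2] at h1
    exact h1
  · refine le_trans ?_ (aT_nonneg L t)
    unfold Mf
    have h33 : √3 ^ 2 = 3 := Real.sq_sqrt (by norm_num)
    have : 3 - √3 * t ≤ 0 := by nlinarith [Real.sqrt_nonneg 3]
    have h4 : (3 - √3 * t) ^ 3 ≤ 0 := by
      have := pow_nonneg (neg_nonneg.mpr this) 3
      nlinarith
    linarith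

lemma ge_T4 (h : MaxL n t L) (hn : 4 ≤ n) (ht : 1.02 ≤ t) (ht2 : t ≤ 1.826) : T4 t ≤ T L t := by
  have h1 := competitor h (m := 4) (by norm_num) hn
  have h2 := T_f4 (k := n - 4) (t := t) (by linarith) (by linarith)
  rw [show ((4:ℕ):ℝ) = 4 by norm_num, h2] at h1
  exact h1

lemma ge_T5 (h : MaxL n t L) (hn : 5 ≤ n) (ht : 1.02 ≤ t) (ht2 : t ≤ 1.826) : T5 t ≤ T L t := by
  have h1 := competitor h (m := 5) (by norm_num) hn
  have h5 : t ≤ √5 := by
    rw [Real.le_sqrt (by linarith) (by norm_num)]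
    nlinarith
  have h2 := T_f5 (k := n - 5) (t := t) (by linarith) h5
  rw [show ((5:ℕ):ℝ) = 5 by norm_num, h2] at h1
  exact h1

lemma T_big (h : MaxL n t L) (hn : 4 ≤ n) (ht : 1.02 ≤ t) (ht2 : t ≤ 1.826) :
    0.000013 < T L t := by
  refine lt_of_lt_of_le ?_ (ge_T4 h hn ht ht2)
  unfold T4
  have : (0.174:ℝ) ^ 4 ≤ (2 - t) ^ 4 := pow_le_pow_left₀ (by norm_num) (by linarith) 4
  norm_num at this
  linarith

/-- facts about a coordinate of a maximiser -/
lemma coord (h : MaxL n t L) (hn : 4 ≤ n) (ht : 1.02 ≤ t) (ht2 : t ≤ 1.826) {x : ℝ} {l : List ℝ}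
    (hp : L.Perm (x :: l)) (hx : 0 < x) :
    Crit t x l ∧ 0 < sq l ∧ t * x < 1 ∧ sq l = 1 - x ^ 2 ∧ l.length = n - 1 := by
  have hT := T_big h hn ht ht2
  obtain ⟨y, hy, hy0⟩ := rest_pos (by linarith : (1:ℝ) ≤ t) h.nonneg h.unit
    (lt_trans (by norm_num) hT) hp
  have hc := crit h (by linarith) hp hx ⟨y, hy, hy0⟩
  have hs := asq_pos_of_mem hy hy0
  have h1 : sq (x :: l) = 1 := by rw [← asq_perm hp]; exact h.unit
  rw [T_perm hp] at hT
  have htx := tx_lt ht hx h1 hs hc hT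
  refine ⟨hc, hs, htx, ?_, ?_⟩
  · rw [asq_cons] at h1; linarith
  · have := hp.length_eq
    rw [h.len] at this
    simp at this
    omega

lemma kill_Ex (h : MaxL n t L) {l : List ℝ} {p q ν : ℝ} (hp : L.Perm (l ++ [p, q])) (hqp : q < p)
    (hE : PairEx l p q ν) (hν : ν ≤ t) : False := by
  obtain ⟨c, hc⟩ : ∃ c, c = √((p ^ 2 + q ^ 2) / 2) := ⟨_, rfl⟩
  have hc0 : 0 ≤ c := by rw [hc]; positivity
  have hc2 : 2 * c ^ 2 = p ^ 2 + q ^ 2 := by
    rw [hc, Real.sq_sqrt (by positivity)]; ring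
  exact no_pair h hp hqp hc0 hc2 (hE t hν c hc0 hc2)

lemma kill_T3 (h : MaxL n t L) (hn : 4 ≤ n) (ht : 1.02 ≤ t) (ht2 : t ≤ 1.826) {p q r F : ℝ}
    {l : List ℝ} (hp : L.Perm (p :: q :: r :: l)) (hr : 0 < r) (hrq : r ≤ q) (hqp : q ≤ p)
    (hpq : p + q ≤ t) (hp0 : 0.478 ≤ p) (hB : Beats t p q r F) (hF : F ≤ T L t) : False := by
  obtain ⟨hc, -, htx, -, -⟩ := coord h hn ht ht2 hp (by linarith)
  have h1 : sq (p :: q :: r :: l) = 1 := by rw [← asq_perm hp]; exact h.unit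
  have h3 : 1 ≤ 3 * (t * p) := by nlinarith
  have := T3_bound hc h1 hr hrq hqp hpq htx.le h3 hB
  rw [← T_perm hp] at this
  linarith

lemma kill_E4 (h : MaxL n t L) (hn : 4 ≤ n) (ht : 1.02 ≤ t) (ht2 : t ≤ 1.2) {x F : ℝ}
    {l : List ℝ} (hp : L.Perm (x :: x :: x :: x :: l)) (hx : 0.41 ≤ x)
    (h2 : 2 * x < t) (hB : Beats4 t x F) (hF : F ≤ T L t) : False := by
  obtain ⟨hc, -, htx, -, -⟩ := coord h hn ht (by linarith) hp (by linarith)
  have h1 : sq (x :: x :: x :: x :: l) = 1 := by rw [← asq_perm hp]; exact h.unit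
  have := E4_bound hc h1 (by linarith) h2 (by linarith) htx.le hB
  rw [← T_perm hp] at this
  linarith

lemma kill_G (h : MaxL n t L) (hn : 4 ≤ n) (ht : 1.02 ≤ t) (ht2 : t ≤ 1.826) {p : ℝ}
    {l : List ℝ} (hp : L.Perm (p :: l)) (hp0 : 0.66 ≤ p) (hor : 0.72 ≤ p ∨ 1.26 ≤ t) : False := by
  obtain ⟨hc, hs, htx, hs1, hlen⟩ := coord h hn ht ht2 hp (by linarith)
  have hp1 : p < 1 := by nlinarith
  have hg := fact_G hp0 hp1 ht hor htx.le
  have b1 := P_le_hat l (by omega) hs (s := t - p) (by linarith)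
  have b2 := P_le_exp l hs (s := t + p) (by linarith)
  rw [hs1] at b1 b2
  unfold Crit at hc
  rw [← T_perm hp] at hc
  have e1 : (1 - t * p) * P l (t - p) ≤ (1 - t * p) * (Phat ((t - p) / √(1 - p ^ 2)) / 2) :=
    mul_le_mul_of_nonneg_left b1 (by linarith)
  have e2 : (1 + t * p) * P l (t + p) ≤ (1 + t * p) * exp (-(3 / 2) * ((t + p) ^ 2 / (1 - p ^ 2))) :=
    mul_le_mul_of_nonneg_left b2 (by nlinarith)
  have e3 : max (Mf t) (T4 t) ≤ T L t := max_le (ge_Mf h hn ht) (ge_T4 h hn ht ht2)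
  linarith

end Pool.Agent.Helper89.SP
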