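import Pool.Agent.Helper89.SP.Cases

/-!
Case analysis, second part.
-/

set_option autoImplicit false

open MeasureTheory Set Real Slab

namespace Pool.Agent.Helper89.SP

lemma decomp : ∀ {L : List ℝ}, (L.Pairwise fun a b => b ≤ a) → L ≠ [] →
    ∃ (x : ℝ) (m : ℕ), 1 ≤ m ∧ (L = List.replicate m x ∨
      ∃ (u : ℝ) (l : List ℝ), L = List.replicate m x ++ u :: l ∧ u < x)
  | [], _, h => absurd rfl h
  | [x], _, _ => ⟨x, 1, le_rfl, Or.inl rfl⟩
  | x :: y :: L, hs, _ => by
    rw [List.pairwise_cons] at hs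
    obtain ⟨h1, h2⟩ := hs
    obtain ⟨x', m, hm, h⟩ := decomp h2 (by simp)
    have hy : y = x' := by
      rcases h with h | ⟨u, l, h, -⟩
      · obtain ⟨m, rfl⟩ : ∃ k, m = k + 1 := ⟨m - 1, by omega⟩
        rw [List.replicate_succ] at h
        exact (List.cons.inj h).1
      · obtain ⟨m, rfl⟩ : ∃ k, m = k + 1 := ⟨m - 1, by omega⟩
        rw [List.replicate_succ, List.cons_append] at h
        exact (List.cons.inj h).1
    rcases eq_or_lt_of_le (h1 y (by simp)) with hxy | hxy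
    · refine ⟨x, m + 1, by omega, ?_⟩
      rcases h with h | ⟨u, l, h, hu⟩
      · left
        rw [h, List.replicate_succ, ← hy, hxy]
      · right
        refine ⟨u, l, ?_, ?_⟩
        · rw [h, List.replicate_succ, ← hy, hxy, List.cons_append]
        · rw [← hxy, hy]; exact hu
    · exact ⟨x, 1, le_rfl, Or.inr ⟨y, L, rfl, hxy⟩⟩

/-- the basic data of three leading coordinates -/
structure D3 (n : ℕ) (t : ℝ) (L : List ℝ) (p q r : ℝ) (l : List ℝ) : Prop where
  h : MaxL n t L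
  hn : 4 ≤ n
  ht : 1.02 ≤ t
  ht2 : t ≤ 1.826
  hn4 : n = 4 → t ≤ 1.6428
  hp : L.Perm (p :: q :: r :: l)
  hr0 : 0 ≤ r
  hrq : r ≤ q
  hqp : q ≤ p
  hpq : p + q < t
  hl : ∀ e ∈ l, 0 ≤ e ∧ e ≤ r

variable {n : ℕ} {t : ℝ} {L : List ℝ} {p q r : ℝ} {l : List ℝ}

namespace D3

lemma hsq (d : D3 n t L p q r l) : sq l + p ^ 2 + q ^ 2 + r ^ 2 = 1 := by
  have := d.h.unit
  rw [asq_perm d.hp, asq_cons, asq_cons, asq_cons] at this
  linarith

lemma hsq1 (d : D3 n t L p q r l) : p ^ 2 + q ^ 2 + r ^ 2 ≤ 1 := by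
  have := d.hsq
  have := asq_nonneg' l
  linarith

lemma Mf_le (d : D3 n t L p q r l) : Mf t ≤ T L t := ge_Mf d.h d.hn d.ht
lemma T4_le (d : D3 n t L p q r l) : T4 t ≤ T L t := ge_T4 d.h d.hn d.ht d.ht2

lemma kill (d : D3 n t L p q r l) {F : ℝ} (hp0 : 0.478 ≤ p) (hr : 0 < r)
    (hB : Beats t p q r F) (hF : F ≤ T L t) : False :=
  kill_T3 d.h d.hn d.ht d.ht2 d.hp hr d.hrq d.hqp d.hpq.le hp0 hB hF

lemma k0 (d : D3 n t L p q r l) (h0 : 0.478 ≤ p) (h1 : p ≤ 0.54) (ht1 : t ≤ 1.04)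
    (hS : S0 p ≤ q + r) : False := by
  have hr : 0 < r := by have := d.hqp; unfold S0 at hS; linarith
  exact d.kill h0 hr (fact_T3_0 h0 h1 d.ht ht1 hr d.hrq d.hqp d.hpq.le d.hsq1 hS) d.Mf_le

lemma k1 (d : D3 n t L p q r l) (h0 : 0.4875 ≤ p) (h1 : p ≤ 0.54) (ht0 : 1.04 ≤ t) (ht1 : t ≤ 1.06)
    (hS : S1 p ≤ q + r) : False := by
  have hr : 0 < r := by have := d.hqp; unfold S1 at hS; linarith
  exact d.kill (by linarith) hr (fact_T3_1 h0 h1 ht0 ht1 hr d.hrq d.hqp d.hpq.le d.hsq1 hS) d.Mf_le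

lemma k2 (d : D3 n t L p q r l) (h0 : 0.4975 ≤ p) (h1 : p ≤ 0.545) (ht0 : 1.06 ≤ t) (ht1 : t ≤ 1.08)
    (hS : S2 p ≤ q + r) : False := by
  have hr : 0 < r := by have := d.hqp; unfold S2 at hS; linarith
  exact d.kill (by linarith) hr (fact_T3_2 h0 h1 ht0 ht1 hr d.hrq d.hqp d.hpq.le d.hsq1 hS) d.Mf_le

lemma k3 (d : D3 n t L p q r l) (h0 : 0.5065 ≤ p) (h1 : p ≤ 0.55) (ht0 : 1.08 ≤ t) (ht1 : t ≤ 1.1)
    (hS : S3 p ≤ q + r) : False := by
  have hr : 0 < r := by have := d.hqp; unfold S3 at hS; linarith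
  exact d.kill (by linarith) hr (fact_T3_3 h0 h1 ht0 ht1 hr d.hrq d.hqp d.hpq.le d.hsq1 hS) d.Mf_le

lemma k4 (d : D3 n t L p q r l) (h0 : 0.5125 ≤ p) (h1 : p ≤ 0.56) (ht0 : 1.1 ≤ t) (ht1 : t ≤ 1.2)
    (hS : S4 p ≤ q + r) : False := by
  have hr : 0 < r := by have := d.hqp; unfold S4 at hS; linarith
  exact d.kill (by linarith) hr (fact_T3_4 h0 h1 ht0 ht1 hr d.hrq d.hqp d.hpq.le d.hsq1 hS) d.T4_le

lemma k5 (d : D3 n t L p q r l) (h0 : 0.5275 ≤ p) (h1 : p ≤ 0.62) (ht0 : 1.2 ≤ t) (ht1 : t ≤ 1.35)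
    (hS : S5 p ≤ q + r) : False := by
  have hr : 0 < r := by have := d.hqp; unfold S5 at hS; linarith
  exact d.kill (by linarith) hr (fact_T3_5 h0 h1 ht0 ht1 hr d.hrq d.hqp d.hpq.le d.hsq1 hS) d.T4_le

lemma htp (d : D3 n t L p q r l) (hp : 0 < p) : t * p < 1 :=
  (coord d.h d.hn d.ht d.ht2 d.hp hp).2.2.1

lemma k67 (d : D3 n t L p q r l) (h0 : 0.535 ≤ p) (h1 : p ≤ 0.58) (ht0 : 1.35 ≤ t)
    (hS : S6 p ≤ q + r) : False := by
  have hr : 0 < r := by have := d.hqp; unfold S6 at hS; linarith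
  have htp := d.htp (by linarith)
  rcases le_total t 1.6428 with h3 | h3
  · exact d.kill (by linarith) hr
      (fact_T3_6 h0 h1 ht0 h3 hr d.hrq d.hqp d.hpq.le d.hsq1 htp hS) d.T4_le
  · have hn5 : 5 ≤ n := by
      rcases eq_or_lt_of_le d.hn with h4 | h4
      · have h5 : t = 1.6428 := le_antisymm (d.hn4 h4.symm) h3
        exact (d.kill (by linarith) hr
          (fact_T3_6 h0 h1 ht0 h5.le hr d.hrq d.hqp d.hpq.le d.hsq1 htp hS) d.T4_le).elim
      · exact h4
    exact d.kill (by linarith) hr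
      (fact_T3_7 h0 h1 (by linarith) d.ht2 hr d.hrq d.hqp d.hpq.le d.hsq1 htp hS)
      (ge_T5 d.h hn5 d.ht d.ht2)

lemma k67a (d : D3 n t L p q r l) (h0 : 0.58 ≤ p) (h1 : p ≤ 0.66) (ht0 : 1.35 ≤ t)
    (hS : 0.95 ≤ q + r) : False := by
  have hr : 0 < r := by have := d.hqp; linarith
  have htp := d.htp (by linarith)
  rcases le_total t 1.6428 with h3 | h3
  · exact d.kill (by linarith) hr
      (fact_T3_6a h0 h1 ht0 h3 hr d.hrq d.hqp d.hpq.le d.hsq1 htp hS) d.T4_le
  · have hn5 : 5 ≤ n := by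
      rcases eq_or_lt_of_le d.hn with h4 | h4
      · have h5 : t = 1.6428 := le_antisymm (d.hn4 h4.symm) h3
        exact (d.kill (by linarith) hr
          (fact_T3_6a h0 h1 ht0 h5.le hr d.hrq d.hqp d.hpq.le d.hsq1 htp hS) d.T4_le).elim
      · exact h4
    exact d.kill (by linarith) hr
      (fact_T3_7a h0 h1 (by linarith) d.ht2 hr d.hrq d.hqp d.hpq.le d.hsq1 htp hS)
      (ge_T5 d.h hn5 d.ht d.ht2)

lemma k8 (d : D3 n t L p q r l) (h0 : 0.56 ≤ p) (h1 : p ≤ 0.72) (ht1 : t ≤ 1.35)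
    (hS : 0.95 ≤ q + r) : False := by
  have hr : 0 < r := by have := d.hqp; linarith
  rcases le_total t 1.1 with h3 | h3
  · exact d.kill (by linarith) hr
      (fact_T3_8 (by linarith) h1 d.ht h3 hr d.hrq d.hqp d.hpq.le d.hsq1 hS) d.Mf_le
  rcases le_total t 1.2 with h4 | h4
  · exact d.kill (by linarith) hr
      (fact_T3_8a (by linarith) h1 h3 h4 hr d.hrq d.hqp d.hpq.le d.hsq1 hS) d.T4_le
  · exact d.kill (by linarith) hr
      (fact_T3_8b (by linarith) h1 h4 ht1 hr d.hrq d.hqp d.hpq.le d.hsq1 hS) d.T4_le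

lemma k8a (d : D3 n t L p q r l) (h0 : 0.54 ≤ p) (h1 : p ≤ 0.72) (ht1 : t ≤ 1.2)
    (hS : 0.95 ≤ q + r) : False := by
  have hr : 0 < r := by have := d.hqp; linarith
  rcases le_total t 1.1 with h3 | h3
  · exact d.kill (by linarith) hr
      (fact_T3_8 (by linarith) h1 d.ht h3 hr d.hrq d.hqp d.hpq.le d.hsq1 hS) d.Mf_le
  · exact d.kill (by linarith) hr
      (fact_T3_8a (by linarith) h1 h3 ht1 hr d.hrq d.hqp d.hpq.le d.hsq1 hS) d.T4_le

lemma kG (d : D3 n t L p q r l) (h0 : 0.66 ≤ p) (h : 0.72 ≤ p ∨ 1.26 ≤ t) : False :=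
  kill_G d.h d.hn d.ht d.ht2 d.hp h0 h

/-- the second coordinate is smaller than the first: pair `(p, q)` -/
lemma permA (d : D3 n t L p q r l) : L.Perm ((r :: l) ++ [p, q]) := by
  refine d.hp.trans ?_
  have : (p :: q :: r :: l) = [p, q] ++ (r :: l) := rfl
  rw [this]
  exact List.perm_append_comm

lemma dA (d : D3 n t L p q r l) (hqp : q < p) {S : ℝ} (hS : q + r ≤ S) : DA (r :: l) p q S := by
  refine ⟨d.hr0.trans d.hrq, hqp, ?_, ?_⟩
  · intro e he
    rcases List.mem_cons.mp he with rfl | he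
    · exact ⟨d.hr0, d.hrq, hS⟩
    · have := d.hl e he
      exact ⟨this.1, this.2.trans d.hrq, by linarith [this.2]⟩
  · rw [asq_cons]; have := d.hsq; linarith

lemma exA (d : D3 n t L p q r l) (hqp : q < p) {ν : ℝ} (hE : PairEx (r :: l) p q ν) (hν : ν ≤ t) :
    False := kill_Ex d.h d.permA hqp hE hν

/-- pair `(p, r)` -/
lemma permB (d : D3 n t L p q r l) : L.Perm ((q :: l) ++ [p, r]) := by
  refine d.hp.trans ?_
  have e : (p :: r :: q :: l) = [p, r] ++ (q :: l) := rfl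
  refine (List.Perm.cons p (List.Perm.swap r q l)).trans ?_
  rw [e]
  exact List.perm_append_comm

lemma dB (d : D3 n t L p q r l) (hrp : r < p) : DB l p q r :=
  ⟨d.hr0, d.hrq, d.hqp, hrp, d.hl, d.hsq⟩

lemma exB (d : D3 n t L p q r l) (hrp : r < p) {ν : ℝ} (hE : PairEx (q :: l) p r ν) (hν : ν ≤ t) :
    False := kill_Ex d.h d.permB hrp hE hν

/-- multiplicity one, `p > 0.478` -/
theorem one (d : D3 n t L p q r l) (hqp : q < p) (h0 : 0.478 ≤ p) : False := by
  have hq0 := d.hr0.trans d.hrq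
  have ht := d.ht
  have hrq := d.hrq
  have hpq := d.hpq
  -- large p
  rcases le_total 0.72 p with g1 | g1
  · exact d.kG (by linarith) (Or.inl g1)
  rcases le_total 0.66 p with g2 | g2
  · rcases le_total 1.26 t with g3 | g3
    · exact d.kG g2 (Or.inr g3)
    · rcases le_total (q + r) 0.95 with g4 | g4
      · exact d.exA hqp (w_A_102b (d.dA hqp g4) g2 g1 (by linarith)) ht
      · exact d.k8 (by linarith) g1 (by linarith) g4
  -- p ≤ 0.66
  rcases le_total (q + r) 0.952 with s0 | s0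
  · exact d.exA hqp (w_A_102 (d.dA hqp s0) h0 g2) ht
  have hq : 0.475 ≤ q := by linarith
  rcases le_total 0.58 p with g3 | g3
  · rcases le_total t 1.35 with t1 | t1
    · exact d.k8 (by linarith) (by linarith) t1 (by linarith)
    · exact d.k67a g3 g2 t1 (by linarith)
  rcases le_total 0.54 p with g4 | g4
  · rcases le_total t 1.2 with t1 | t1
    · exact d.k8a g4 (by linarith) t1 (by linarith)
    rcases le_total (q + r) (S5 p) with s5 | s5
    · exact d.exA hqp (w_A_120b (d.dA hqp s5) (by linarith) g3 hq) t1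
    rcases le_total t 1.35 with t2 | t2
    · exact d.k5 (by linarith) (by linarith) t1 t2 s5
    rcases le_total (S6 p) (q + r) with s6 | s6
    · exact d.k67 (by linarith) g3 t2 s6
    rcases le_total p 0.57 with g5 | g5
    · exact d.exB (by linarith) (w_B_135 (d.dB (by linarith)) (by linarith) g5 s5 (Or.inr s6)) t2
    · refine d.k67 (by linarith) g3 t2 ?_
      refine le_trans ?_ s5
      unfold S5 S6
      linarith
  -- 0.478 ≤ p ≤ 0.54
  rcases le_total t 1.04 with t1 | t1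
  · refine d.k0 h0 g4 t1 ?_
    unfold S0
    linarith
  rcases le_total p 0.49 with p1 | p1
  · exact d.exA hqp (w_A_104 (d.dA hqp le_rfl) h0 g4 hq (Or.inl p1)) t1
  rcases le_total t 1.06 with t2 | t2
  · rcases le_total (q + r) (S1 p) with s1 | s1
    · exact d.exA hqp (w_A_104 (d.dA hqp s1) h0 g4 hq (Or.inr le_rfl)) t1
    · exact d.k1 (by linarith) g4 t1 t2 s1
  rcases le_total p 0.4975 with p2 | p2
  · exact d.exA hqp (w_A_106 (d.dA hqp le_rfl) p1 g4 hq (Or.inl p2)) t2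
  rcases le_total t 1.08 with t3 | t3
  · rcases le_total (q + r) (S2 p) with s1 | s1
    · exact d.exA hqp (w_A_106 (d.dA hqp s1) p1 g4 hq (Or.inr le_rfl)) t2
    · exact d.k2 p2 (by linarith) t2 t3 s1
  rcases le_total p 0.5065 with p3 | p3
  · exact d.exA hqp (w_A_108 (d.dA hqp le_rfl) p2 g4 hq (Or.inl p3)) t3
  rcases le_total t 1.1 with t4 | t4
  · rcases le_total (q + r) (S3 p) with s1 | s1
    · exact d.exA hqp (w_A_108 (d.dA hqp s1) p2 g4 hq (Or.inr le_rfl)) t3
    · exact d.k3 p3 (by linarith) t3 t4 s1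
  rcases le_total p 0.5125 with p4 | p4
  · exact d.exA hqp (w_A_110 (d.dA hqp le_rfl) p3 g4 hq (Or.inl p4)) t4
  rcases le_total t 1.2 with t5 | t5
  · rcases le_total (q + r) (S4 p) with s1 | s1
    · exact d.exA hqp (w_A_110 (d.dA hqp s1) p3 g4 hq (Or.inr le_rfl)) t4
    · exact d.k4 p4 (by linarith) t4 t5 s1
  rcases le_total p 0.5275 with p5 | p5
  · rcases le_total (q + r) 1.0 with s1 | s1
    · exact d.exA hqp (w_A_120 (d.dA hqp s1) p4 p5 hq) t5
    · exact d.exB (by linarith) (w_B_120 (d.dB (by linarith)) p4 p5 s1) t5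
  rcases le_total (q + r) (S5 p) with s5 | s5
  · exact d.exA hqp (w_A_120b (d.dA hqp s5) p5 g3 hq) t5
  rcases le_total t 1.35 with t6 | t6
  · exact d.k5 p5 (by linarith) t5 t6 s5
  rcases le_total p 0.535 with p6 | p6
  · exact d.exB (by linarith) (w_B_135 (d.dB (by linarith)) p5 (by linarith) s5 (Or.inl p6)) t6
  rcases le_total (q + r) (S6 p) with s6 | s6
  · exact d.exB (by linarith) (w_B_135 (d.dB (by linarith)) p5 (by linarith) s5 (Or.inr s6)) t6
  · exact d.k67 p6 g3 t6 s6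

end D3

/-- multiplicity two, `x > 0.478` -/
theorem D3.two {x : ℝ} (d : D3 n t L x x r l) (hrx : r < x) (h0 : 0.478 ≤ x) : False := by
  have hr0 := d.hr0
  have ht := d.ht
  have hpq := d.hpq
  have dM : DM 2 l x r := by
    refine ⟨hr0, hrx, d.hl, ?_⟩
    have := d.hsq
    push_cast
    linarith
  have kE : ∀ {ν : ℝ}, PairEx (List.replicate 1 x ++ l) x r ν → ν ≤ t → False := by
    intro ν hE hν
    exact d.exB hrx hE hν
  -- large x
  rcases le_total 0.66 x with g1 | g1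
  · exact d.kG g1 (Or.inr (by linarith))
  rcases le_total 0.58 x with g2 | g2
  · rcases le_total t 1.2 with t1 | t1
    · rcases le_total (x + r) 0.95 with s1 | s1
      · exact kE (w_M2_110b dM (by linarith) (by linarith) s1) (by linarith)
      · exact d.k8a (by linarith) (by linarith) t1 s1
    rcases le_total (x + r) 0.95 with s1 | s1
    · exact kE (w_M2_120b dM g2 g1 s1) t1
    rcases le_total t 1.35 with t2 | t2
    · exact d.k8 (by linarith) (by linarith) t2 s1
    · exact d.k67a g2 g1 t2 s1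
  rcases le_total t 1.04 with t1 | t1
  · rcases le_total (x + r) (S0 x) with s1 | s1
    · exact kE (w_M2_102 dM h0 (by linarith) s1) ht
    · exact d.k0 h0 (by linarith) t1 s1
  rcases le_total x 0.49 with p1 | p1
  · exact kE (w_M2_104 dM h0 (by linarith) (Or.inl p1)) t1
  rcases le_total t 1.06 with t2 | t2
  · rcases le_total (x + r) (S1 x) with s1 | s1
    · exact kE (w_M2_104 dM h0 (by linarith) (Or.inr s1)) t1
    · exact d.k1 (by linarith) (by linarith) t1 t2 s1
  rcases le_total x 0.4975 with p2 | p2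
  · exact kE (w_M2_106 dM p1 (by linarith) (Or.inl p2)) t2
  rcases le_total t 1.08 with t3 | t3
  · rcases le_total (x + r) (S2 x) with s1 | s1
    · exact kE (w_M2_106 dM p1 (by linarith) (Or.inr s1)) t2
    · exact d.k2 p2 (by linarith) t2 t3 s1
  rcases le_total x 0.5065 with p3 | p3
  · exact kE (w_M2_108 dM p2 (by linarith) (Or.inl p3)) t3
  rcases le_total t 1.1 with t4 | t4
  · rcases le_total (x + r) (S3 x) with s1 | s1
    · exact kE (w_M2_108 dM p2 (by linarith) (Or.inr s1)) t3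
    · exact d.k3 p3 (by linarith) t3 t4 s1
  rcases le_total x 0.5125 with p4 | p4
  · exact kE (w_M2_110 dM p3 (by linarith) (Or.inl p4)) t4
  rcases le_total t 1.2 with t5 | t5
  · rcases le_total x 0.56 with p5 | p5
    · rcases le_total (x + r) (S4 x) with s1 | s1
      · exact kE (w_M2_110 dM p3 p5 (Or.inr s1)) t4
      · exact d.k4 p4 p5 t4 t5 s1
    · rcases le_total (x + r) 0.95 with s1 | s1
      · exact kE (w_M2_110b dM p5 (by linarith) s1) t4
      · exact d.k8a (by linarith) (by linarith) t5 s1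
  rcases le_total x 0.5275 with p5 | p5
  · exact kE (w_M2_120 dM p4 (by linarith) (Or.inl p5)) t5
  rcases le_total (x + r) (S5 x) with s5 | s5
  · exact kE (w_M2_120 dM p4 (by linarith) (Or.inr s5)) t5
  rcases le_total t 1.35 with t6 | t6
  · exact d.k5 p5 (by linarith) t5 t6 s5
  rcases le_total x 0.535 with p6 | p6
  · exact kE (w_M2_135 dM p5 (by linarith) (Or.inl p6)) t6
  rcases le_total (x + r) (S6 x) with s6 | s6
  · exact kE (w_M2_135 dM p5 (by linarith) (Or.inr s6)) t6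
  · exact d.k67 p6 g2 t6 s6

/-- multiplicity three, `x > 0.478` -/
theorem D3.three {x u : ℝ} (d : D3 n t L x x x (u :: l)) (hux : u < x) (hlu : ∀ e ∈ l, e ≤ u)
    (h0 : 0.478 ≤ x) : False := by
  have ht := d.ht
  have hpq := d.hpq
  have hsq := d.hsq1
  have hx58 : x ≤ 0.578 := by nlinarith
  have hu0 : 0 ≤ u := (d.hl u (by simp)).1
  have dM : DM 3 l x u := by
    refine ⟨hu0, hux, fun e he => ⟨(d.hl e (by simp [he])).1, hlu e he⟩, ?_⟩
    have := d.hsq
    rw [asq_cons] at this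
    push_cast
    linarith
  have kE : ∀ {ν : ℝ}, PairEx (List.replicate 2 x ++ l) x u ν → ν ≤ t → False := by
    intro ν hE hν
    refine kill_Ex d.h ?_ hux hE hν
    refine d.hp.trans ?_
    have e : (x :: x :: x :: u :: l) = [x, x] ++ ([x, u] ++ l) := rfl
    rw [e]
    have e2 : List.replicate 2 x ++ l ++ [x, u] = [x, x] ++ (l ++ [x, u]) := by simp
    rw [e2]
    exact List.Perm.append_left _ List.perm_append_comm
  rcases le_total t 1.04 with t1 | t1
  · refine d.k0 h0 (by linarith) t1 ?_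
    unfold S0; linarith
  rcases le_total x 0.4875 with p1 | p1
  · exact kE (w_M3_104 dM h0 p1) t1
  rcases le_total t 1.06 with t2 | t2
  · refine d.k1 p1 (by linarith) t1 t2 ?_
    unfold S1; linarith
  rcases le_total x 0.4975 with p2 | p2
  · exact kE (w_M3_106 dM p1 p2) t2
  rcases le_total t 1.08 with t3 | t3
  · refine d.k2 p2 (by linarith) t2 t3 ?_
    unfold S2; linarith
  rcases le_total x 0.5065 with p3 | p3
  · exact kE (w_M3_108 dM p2 p3) t3
  rcases le_total t 1.1 with t4 | t4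
  · refine d.k3 p3 (by linarith) t3 t4 ?_
    unfold S3; linarith
  rcases le_total x 0.5125 with p4 | p4
  · exact kE (w_M3_110 dM p3 p4) t4
  rcases le_total t 1.2 with t5 | t5
  · rcases le_total x 0.56 with p5 | p5
    · refine d.k4 p4 p5 t4 t5 ?_
      unfold S4; linarith
    · exact d.k8a (by linarith) (by linarith) t5 (by linarith)
  rcases le_total x 0.55 with p5 | p5
  · exact kE (w_M3_120 dM p4 p5) t5
  rcases le_total t 1.35 with t6 | t6
  · refine d.k5 (by linarith) (by linarith) t5 t6 ?_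
    unfold S5; linarith
  · refine d.k67 (by linarith) (by linarith) t6 ?_
    unfold S6; linarith

end Pool.Agent.Helper89.SP
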