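import Pool.Agent.Helper89.Slab.Main
import Pool.Agent.Helper88.SlabVolume

/-!
Project SP: full answer to Q1 of MP_66ebcc_gt.  Definitions.
-/

set_option autoImplicit false

open MeasureTheory Set Real Slab

namespace Pool.Agent.Helper89.SP

/-- the sum of squares -/
noncomputable def sq (L : List ℝ) : ℝ := (L.map fun x => x ^ 2).sum

/-- the sum of fourth powers -/
noncomputable def qd (L : List ℝ) : ℝ := (L.map fun x => x ^ 4).sum

/-- `T L t = P(|∑ xᵢ Uᵢ| > t)` (for `t ≥ 0`) -/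
noncomputable def T (L : List ℝ) (t : ℝ) : ℝ := 2 * AL L H t / 2 ^ L.length

/-- `P l s = P(∑ xᵢ Uᵢ > s)` -/
noncomputable def P (l : List ℝ) (s : ℝ) : ℝ := AL l H s / 2 ^ l.length

/-- the value of `f₃` -/
noncomputable def Mf (t : ℝ) : ℝ := (3 - √3 * t) ^ 3 / 24

/-- the value of `f₄` -/
noncomputable def T4 (t : ℝ) : ℝ := (2 - t) ^ 4 / 12

/-- the value of `f₅` -/
noncomputable def T5 (t : ℝ) : ℝ := ((5 - √5 * t) ^ 5 - 5 * max (3 - √5 * t) 0 ^ 5) / 1920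

/-- `L` is a maximiser of `T · t` among the nonnegative unit vectors of length `n`, with minimal sum
of fourth powers among the maximisers, in decreasing order. -/
structure MaxL (n : ℕ) (t : ℝ) (L : List ℝ) : Prop where
  len : L.length = n
  nonneg : ∀ x ∈ L, 0 ≤ x
  unit : sq L = 1
  best : ∀ L' : List ℝ, L'.length = n → (∀ x ∈ L', 0 ≤ x) → sq L' = 1 → T L' t ≤ T L t
  tie : ∀ L' : List ℝ, L'.length = n → (∀ x ∈ L', 0 ≤ x) → sq L' = 1 → T L' t = T L t →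
    qd L ≤ qd L'
  sorted : L.Pairwise fun a b => b ≤ a

/-- the critical identity at the coordinate `x`, the other coordinates being `l` -/
def Crit (t x : ℝ) (l : List ℝ) : Prop :=
  T (x :: l) t = (1 - t * x) * P l (t - x) + (1 + t * x) * P l (t + x)

/-- variance of the rest -/
noncomputable def vv (p q r : ℝ) : ℝ := (1 - p ^ 2 - q ^ 2 - r ^ 2) / 3

/-- the sixth moment bound of `E(Y-s)₊²` -/
noncomputable def Kb (v s : ℝ) : ℝ := 0.1647 * v ^ 3 / s ^ 4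

/-- the three bounds of `8 q r T` -/
noncomputable def Gi (t p q r : ℝ) : ℝ :=
  (1 - t * p) * ((p + q + r - t) ^ 2 + vv p q r) +
    max (4 * (t * p) - 2) 0 * Kb (vv p q r) (t + p - q - r) +
    (1 - t * p) * Kb (vv p q r) (t - p + q + r)

noncomputable def Gii (k t p q r : ℝ) : ℝ :=
  (1 - t * p) * ((p + q + r - t) ^ 2 * (1 + k / 2) + vv p q r * (1 / 2 + 1 / (2 * k))) +
    (3 * (t * p) - 1) * Kb (vv p q r) (t + p - q - r) +
    (1 - t * p) * Kb (vv p q r) (t - p + q + r)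

noncomputable def Giii (t p q r : ℝ) : ℝ :=
  (1 - t * p) * (vv p q r / 2) +
    (3 * (t * p) - 1) * Kb (vv p q r) (t + p - q - r) +
    (1 - t * p) * Kb (vv p q r) (t - p + q + r)

/-- the three coordinates `p, q, r` are worse than the value `F` -/
def Beats (t p q r F : ℝ) : Prop :=
  Gi t p q r < 8 * (q * r) * F ∨
  (0 ≤ p + q + r - t ∧ ∃ k : ℝ, 0 < k ∧ Gii k t p q r < 8 * (q * r) * F) ∨
  (p + q + r - t ≤ 0 ∧ Giii t p q r < 8 * (q * r) * F)

/-- the bound of `E(Y-s)₊³` -/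
noncomputable def Cb (v s : ℝ) : ℝ :=
  min (0.1583 * v ^ 2 / s) (min (0.1172 * v ^ 3 / s ^ 3) (0.2641 * v ^ 4 / s ^ 5))

/-- four equal coordinates `x` are worse than the value `F` -/
def Beats4 (t x F : ℝ) : Prop :=
  (1 - t * x) * ((4 * x - t) ^ 3 + (4 * x - t) * (1 - 4 * x ^ 2)) +
    (1 - t * x) * Cb ((1 - 4 * x ^ 2) / 3) (4 * x - t) +
    max (4 * (t * x) - 2) 0 * Cb ((1 - 4 * x ^ 2) / 3) (t - 2 * x) +
    (2 + 4 * (t * x)) * Cb ((1 - 4 * x ^ 2) / 3) (t + 2 * x) < 48 * x ^ 3 * F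

/-- upper bound of `P(|Y| > s σ)`, `σ²` the sum of the squares -/
noncomputable def Phat (s : ℝ) : ℝ :=
  if s ≤ 2 * √2 - 2 then 1 - s else if s ≤ 1.0129 then (√2 - s) ^ 2 / 2 else 0.0806

/-- the lines -/
noncomputable def S0 (p : ℝ) : ℝ := 0.952 - 0.4 * (p - 0.478)
noncomputable def S1 (p : ℝ) : ℝ := 0.975 - 0.2 * (p - 0.4875)
noncomputable def S2 (p : ℝ) : ℝ := 0.993 - 0.6 * (p - 0.4975)
noncomputable def S3 (p : ℝ) : ℝ := 1.008 - 1.5 * (p - 0.5065)
noncomputable def S4 (p : ℝ) : ℝ := 1.016 - 1.4 * (p - 0.5125)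
noncomputable def S5 (p : ℝ) : ℝ := 1.02 - 1.0 * (p - 0.5275)
noncomputable def S6 (p : ℝ) : ℝ := 1.066 - 2.6 * (p - 0.535)

end Pool.Agent.Helper89.SP
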