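import Pool.Agent.Helper89.SP.Cases2

/-!
The dichotomy: a maximiser is `f_n` or not better than `f₃`.
-/

set_option autoImplicit false

open MeasureTheory Set Real Slab

namespace Pool.Agent.Helper89.SP

variable {n : ℕ} {t : ℝ} {L : List ℝ}

/-- general data: `m` copies of `x`, then `u < x`, then `l ≤ u` -/
structure DX (n : ℕ) (t : ℝ) (L : List ℝ) (m : ℕ) (x u : ℝ) (l : List ℝ) : Prop where
  h : MaxL n t L
  hn : 4 ≤ n
  ht : 1.02 ≤ t
  ht2 : t ≤ 1.826
  hm : 1 ≤ m
  hL : L = List.replicate m x ++ u :: l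
  hux : u < x
  hl : ∀ e ∈ l, 0 ≤ e ∧ e ≤ u
  hu : 0 ≤ u

namespace DX

variable {m : ℕ} {x u : ℝ} {l : List ℝ}

lemma hsq (d : DX n t L m x u l) : sq l + m * x ^ 2 + u ^ 2 = 1 := by
  have := d.h.unit
  rw [d.hL, asq_append, asq_replicate, asq_cons] at this
  linarith

lemma dM (d : DX n t L m x u l) : DM m l x u := ⟨d.hu, d.hux, d.hl, d.hsq⟩

lemma perm (d : DX n t L m x u l) : L.Perm ((List.replicate (m - 1) x ++ l) ++ [x, u]) := by
  obtain ⟨k, rfl⟩ : ∃ k, m = k + 1 := ⟨m - 1, by have := d.hm; omega⟩
  have h1 := d.hL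
  rw [List.replicate_succ', List.append_assoc] at h1
  rw [h1, Nat.add_sub_cancel, List.append_assoc]
  refine List.Perm.append_left _ ?_
  have e : ([x] ++ u :: l) = [x, u] ++ l := rfl
  rw [e]
  exact List.perm_append_comm

lemma kE (d : DX n t L m x u l) {ν : ℝ} (hE : PairEx (List.replicate (m - 1) x ++ l) x u ν)
    (hν : ν ≤ t) : False := kill_Ex d.h d.perm d.hux hE hν

lemma hmx (d : DX n t L m x u l) : m * x ^ 2 ≤ 1 := by
  have := d.hsq
  have := asq_nonneg' l
  nlinarith [sq_nonneg u]

lemma len (d : DX n t L m x u l) : m + 1 ≤ n := by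
  have := d.h.len
  rw [d.hL] at this
  simp at this
  omega

/-- `x ≤ 0.41`, `t ≥ 1.04` -/
theorem small (d : DX n t L m x u l) (hx : x ≤ 0.41) (ht : 1.04 ≤ t) : False := by
  have hx0 : 0 < x := lt_of_le_of_lt d.hu d.hux
  rcases le_total x 0.38 with h1 | h1
  · refine d.kE (w_D h1 d.hu d.hux ?_ ?_) ht
    · intro e he
      rcases List.mem_append.mp he with he | he
      · rw [List.eq_of_mem_replicate he]; exact ⟨hx0.le, le_rfl⟩
      · have := d.hl e he
        exact ⟨this.1, this.2.trans d.hux.le⟩
    · have h2 := d.hsq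
      rw [asq_append, asq_replicate]
      have hm := d.hm
      rw [Nat.cast_sub hm]
      push_cast
      linarith
  · have hm6 : m ≤ 6 := by
      by_contra hcon
      have h7 : (7:ℝ) ≤ m := by exact_mod_cast (by omega : 7 ≤ m)
      have := d.hmx
      nlinarith
    exact d.kE (w_M_104 d.hm hm6 d.dM h1 hx) ht

lemma m_le {k : ℕ} (d : DX n t L m x u l) {x0 : ℝ} (hx0 : 0 ≤ x0) (hx : x0 ≤ x)
    (hk : 1 < ((k : ℝ) + 1) * x0 ^ 2) : m ≤ k := by
  by_contra hcon
  have h7 : (k:ℝ) + 1 ≤ m := by exact_mod_cast (by omega : k + 1 ≤ m)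
  have h1 := d.hmx
  have h2 : x0 ^ 2 ≤ x ^ 2 := by gcongr
  have h3 : ((k : ℝ) + 1) * x0 ^ 2 ≤ m * x ^ 2 := by
    have : (0:ℝ) ≤ (k:ℝ) + 1 := by positivity
    exact mul_le_mul h7 h2 (by positivity) (by positivity)
  linarith

/-- four equal coordinates -/
theorem four (d : DX n t L m x u l) (hm : 4 ≤ m) (h2x : 2 * x < t) (h0 : 0.41 ≤ x) : False := by
  have ht := d.ht
  have ht2 := d.ht2
  have hn := d.hn
  have hlen := d.len
  have hm5 : m ≤ 5 := d.m_le (x0 := 0.41) (by norm_num) h0 (by norm_num)
  have hx5 : x ≤ 0.5 := by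
    have h1 := d.hmx
    have h4 : (4:ℝ) ≤ m := by exact_mod_cast hm
    nlinarith
  have hperm : L.Perm (x :: x :: x :: x :: (List.replicate (m - 4) x ++ u :: l)) := by
    have e : (x :: x :: x :: x :: (List.replicate (m - 4) x ++ u :: l)) =
        (List.replicate 4 x ++ List.replicate (m - 4) x) ++ u :: l := rfl
    rw [e, ← List.replicate_add, show 4 + (m - 4) = m by omega, ← d.hL]
  have hMf := ge_Mf d.h hn ht
  have hE : ∀ {F : ℝ}, t ≤ 1.2 → Beats4 t x F → F ≤ T L t → False := fun h1 h2 h3 =>
    kill_E4 d.h hn ht h1 hperm h0 h2x h2 h3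
  obtain h4 | h5 : m = 4 ∨ m = 5 := by omega
  · subst h4
    rcases le_total x 0.44 with h1 | h1
    · exact d.kE (w_M4_102 d.dM h0 h1) ht
    rcases le_total x 0.47 with h2 | h2
    · rcases le_total t 1.04 with t1 | t1
      · exact hE (by linarith) (fact_E4_c h1 h2 ht t1) hMf
      · exact d.kE (w_M4_104 d.dM h1 h2) t1
    · rcases le_total t 1.2 with t1 | t1
      · rcases fact_E4_d h2 hx5 ht t1 with hF | hF | hF
        · exact hE t1 hF hMf
        · exact hE t1 hF (ge_T4 d.h hn ht ht2)
        · exact hE t1 hF (ge_T5 d.h (by omega) ht ht2)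
      · exact d.kE (w_M4_120 d.dM h2 hx5) t1
  · subst h5
    have hx45 : x ≤ 0.4473 := by
      have h1 := d.hmx
      push_cast at h1
      nlinarith
    rcases le_total x 0.43 with h1 | h1
    · rcases le_total t 1.04 with t1 | t1
      · exact hE (by linarith) (fact_E4_a h0 h1 ht t1) hMf
      · exact d.kE (w_M5_104 d.dM h0 h1) t1
    · rcases le_total t 1.06 with t1 | t1
      · exact hE (by linarith) (fact_E4_b h1 hx45 ht t1) hMf
      · exact d.kE (w_M5_106 d.dM h1 hx45) t1

end DX

/-- The dichotomy. -/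
theorem dichotomy (h : MaxL n t L) (hn : 4 ≤ n) (ht : 1.02 ≤ t) (ht2 : t ≤ 1.826)
    (hn4 : n = 4 → t ≤ 1.6428) :
    L = List.replicate n (1 / √(n : ℝ)) ∨ T L t ≤ Mf t := by
  have hne : L ≠ [] := by
    intro h0
    have := h.len
    rw [h0] at this
    simp at this
    omega
  obtain ⟨x, m, hm, hL | ⟨u, l, hL, hux⟩⟩ := decomp h.sorted hne
  · left
    have hmn : m = n := by
      have := h.len
      rw [hL] at this
      simpa using this
    subst hmn
    have h1 := h.unit
    rw [hL, asq_replicate] at h1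
    have hx0 : 0 ≤ x := h.nonneg x (by rw [hL]; simp; omega)
    have hm0 : (0:ℝ) < m := by exact_mod_cast (by omega : 0 < m)
    have hx : x = 1 / √(m : ℝ) := by
      have h2 : x ^ 2 = (1 / √(m : ℝ)) ^ 2 := by
        rw [div_pow, Real.sq_sqrt hm0.le]
        field_simp
        linarith
      exact (pow_left_inj₀ hx0 (by positivity) (by norm_num)).mp h2
    rw [hL, hx]
  · have hu : 0 ≤ u := h.nonneg u (by rw [hL]; simp)
    have hx0 : 0 < x := lt_of_le_of_lt hu hux
    have hl : ∀ e ∈ l, 0 ≤ e ∧ e ≤ u := by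
      intro e he
      refine ⟨h.nonneg e (by rw [hL]; simp [he]), ?_⟩
      have h1 := h.sorted
      rw [hL, List.pairwise_append] at h1
      exact (List.pairwise_cons.mp h1.2.1).1 e he
    have d : DX n t L m x u l := ⟨h, hn, ht, ht2, hm, hL, hux, hl, hu⟩
    have hsq2 : x ^ 2 ≤ 1 := by
      have h1 := d.hmx
      have h2 : (1:ℝ) ≤ m := by exact_mod_cast hm
      nlinarith [sq_nonneg x]
    -- small coordinates
    rcases le_total x 0.41 with h41 | h41
    · rcases le_total t 1.04 with t1 | t1
      · right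
        refine small_coords h.nonneg h.unit ?_ ht t1
        intro e he
        rw [hL] at he
        rcases List.mem_append.mp he with he | he
        · rw [List.eq_of_mem_replicate he]; exact h41
        · rcases List.mem_cons.mp he with rfl | he
          · linarith
          · linarith [(hl e he).2]
      · exact (d.small h41 t1).elim
    -- region A
    have rA : ∀ {p q : ℝ} {l' : List ℝ}, L.Perm (p :: q :: l') → t ≤ p + q → T L t ≤ Mf t := by
      intro p q l' hp hA
      have h1 := h.unit
      rw [asq_perm hp, asq_cons, asq_cons] at h1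
      have h2 := asq_nonneg' l'
      have ht2' : t ≤ √2 := by
        rw [Real.le_sqrt (by linarith) (by norm_num)]
        nlinarith [sq_nonneg (p - q)]
      exact regionA h.nonneg h.unit ht ht2' hp hA
    have sortedl : l.Pairwise fun a b => b ≤ a := by
      have h1 := h.sorted
      rw [hL, List.pairwise_append] at h1
      exact (List.pairwise_cons.mp h1.2.1).2
    obtain h1 | h2 | h3 | h4 : m = 1 ∨ m = 2 ∨ m = 3 ∨ 4 ≤ m := by omega
    · subst h1
      have hL' : L = x :: u :: l := hL
      rcases le_or_gt t (x + u) with hA | hA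
      · right; exact rA (by rw [hL']) hA
      exfalso
      rcases le_total x 0.478 with h5 | h5
      · exact d.kE (w_M_102 le_rfl (by norm_num) d.dM h41 h5) ht
      · obtain ⟨r, l', rfl⟩ : ∃ r l', l = r :: l' := by
          rcases l with _ | ⟨r, l'⟩
          · have := h.len
            rw [hL'] at this
            simp at this
            omega
          · exact ⟨r, l', rfl⟩
        have hr := hl r (by simp)
        have d3 : D3 n t L x u r l' := by
          refine ⟨h, hn, ht, ht2, hn4, by rw [hL'], hr.1, hr.2, hux.le, hA, ?_⟩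
          intro e he
          exact ⟨(hl e (by simp [he])).1, (List.pairwise_cons.mp sortedl).1 e he⟩
        exact d3.one hux h5
    · subst h2
      have hL' : L = x :: x :: u :: l := hL
      rcases le_or_gt t (x + x) with hA | hA
      · right; exact rA (by rw [hL']) hA
      exfalso
      rcases le_total x 0.478 with h5 | h5
      · exact d.kE (w_M_102 (by norm_num) (by norm_num) d.dM h41 h5) ht
      · have d3 : D3 n t L x x u l :=
          ⟨h, hn, ht, ht2, hn4, by rw [hL'], hu, hux.le, le_rfl, hA, hl⟩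
        exact d3.two hux h5
    · subst h3
      have hL' : L = x :: x :: x :: u :: l := hL
      rcases le_or_gt t (x + x) with hA | hA
      · right; exact rA (by rw [hL']) hA
      exfalso
      rcases le_total x 0.478 with h5 | h5
      · exact d.kE (w_M_102 (by norm_num) (by norm_num) d.dM h41 h5) ht
      · have d3 : D3 n t L x x x (u :: l) := by
          refine ⟨h, hn, ht, ht2, hn4, by rw [hL'], hx0.le, le_rfl, le_rfl, hA, ?_⟩
          intro e he
          rcases List.mem_cons.mp he with rfl | he
          · exact ⟨hu, hux.le⟩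
          · exact ⟨(hl e he).1, (hl e he).2.trans hux.le⟩
        exact d3.three hux (fun e he => (hl e he).2) h5
    · obtain ⟨k, rfl⟩ : ∃ k, m = k + 2 := ⟨m - 2, by omega⟩
      have hL' : L = x :: x :: (List.replicate k x ++ u :: l) := by
        rw [hL, List.replicate_succ, List.replicate_succ]; rfl
      rcases le_or_gt t (x + x) with hA | hA
      · right; exact rA (by rw [hL']) hA
      exfalso
      exact d.four h4 (by linarith) h41

end Pool.Agent.Helper89.SP
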