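import Pool.Agent.Helper89.SP.Dich

/-!
Final assembly of project SP.
-/

set_option autoImplicit false

open MeasureTheory Set Real Slab
open Pool.Agent.Helper88.Slab (prob)

namespace Pool.Agent.Helper89.SP

open FA in
/-- `T(f₃) < T(f₄)` from `t = 1.1` on. -/
lemma Mf_lt_T4 {t : ℝ} (ht : 1.1 ≤ t) (ht2 : t ≤ 1.826) : Mf t < T4 t := by
  obtain ⟨h3a, h3b⟩ := sqrt3_b
  have h33 : √3 ^ 2 = 3 := Real.sq_sqrt (by norm_num)
  unfold Mf T4
  rcases le_or_gt √3 t with h | h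
  · have h1 : 3 - √3 * t ≤ 0 := by nlinarith [Real.sqrt_nonneg 3]
    have h2 : (3 - √3 * t) ^ 3 ≤ 0 := by
      have := pow_nonneg (neg_nonneg.mpr h1) 3
      nlinarith
    have h3 : 0 < (2 - t) ^ 4 := by
      have : 0 < 2 - t := by linarith
      positivity
    linarith
  · have h1 : 0 < 3 - √3 * t := by nlinarith [Real.sqrt_nonneg 3]
    have h2 : 3 - √3 * t ≤ 3 - 1.7320508 * t := by nlinarith
    have h3 : (3 - √3 * t) ^ 3 ≤ (3 - 1.7320508 * t) ^ 3 := pow_le_pow_left₀ h1.le h2 3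
    have h4 : (3 - 1.7320508 * t) ^ 3 < 2 * (2 - t) ^ 4 := by
      have ht3 : t < 1.7320509 := by linarith
      obtain ⟨y, hy⟩ : ∃ y, y = t - 1.1 := ⟨_, rfl⟩
      have ht' : t = y + 1.1 := by linarith
      rw [ht']
      have hy0 : 0 ≤ y := by linarith
      have hy1 : y ≤ 0.633 := by linarith
      have hb : 0 ≤ 0.5997 + 0.7378 * y - 2 * y ^ 2 := by nlinarith
      have h1 : 0 ≤ y * (0.633 - y) * (0.5997 + 0.7378 * y - 2 * y ^ 2) :=
        mul_nonneg (mul_nonneg hy0 (by linarith)) hb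
      have h2 : 0 ≤ y * (0.633 - y) := mul_nonneg hy0 (by linarith)
      have h3 : 0 ≤ y ^ 2 * (0.633 - y) := mul_nonneg (sq_nonneg y) (by linarith)
      nlinarith [h1, h2, h3, hy0, hy1, pow_nonneg hy0 3]
    linarith

/-- lists and vectors -/
lemma aT_abs {n : ℕ} (a : Fin n → ℝ) {t : ℝ} (ht : 0 ≤ t) :
    T (List.ofFn fun i => |a i|) t = 1 - prob a t := by
  rw [T_ofFn _ ht, FA.prob_abs]

lemma asq_ofFn {n : ℕ} (a : Fin n → ℝ) : sq (List.ofFn a) = ∑ i, a i ^ 2 := by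
  unfold sq
  rw [List.map_ofFn, List.sum_ofFn]
  rfl

lemma prob_fn (n : ℕ) {t : ℝ} (ht : 0 ≤ t) :
    prob (fun _ : Fin n => 1 / √(n : ℝ)) t = 1 - Tn n t := by
  have h := T_ofFn (fun _ : Fin n => 1 / √(n : ℝ)) ht
  rw [List.ofFn_const] at h
  unfold Tn
  linarith

/-- every unit vector is at most as good as the maximiser -/
lemma le_max {n : ℕ} {t : ℝ} {L : List ℝ} (h : MaxL n t L) (ht : 0 ≤ t) (a : Fin n → ℝ)
    (ha : ∑ i, a i ^ 2 = 1) : 1 - T L t ≤ prob a t := by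
  have h1 := h.best (List.ofFn fun i => |a i|) (by simp) (by
    intro x hx
    obtain ⟨i, rfl⟩ := List.mem_ofFn.mp hx
    exact abs_nonneg _) (by
    rw [asq_ofFn]; simpa [sq_abs] using ha)
  rw [aT_abs a ht] at h1
  linarith

/-- dimension at least four: the phases -/
theorem phases {n : ℕ} (hn : 4 ≤ n) : ∃ t₂ : ℝ, 1.04 ≤ t₂ ∧ t₂ ≤ 1.1 ∧
    (∀ t : ℝ, 1.02 ≤ t → t < t₂ → ∀ a : Fin n → ℝ, ∑ i, a i ^ 2 = 1 → 1 - Mf t ≤ prob a t) ∧
    (∀ t : ℝ, t₂ < t → t ≤ 1.826 → (n = 4 → t ≤ 1.6428) → ∀ a : Fin n → ℝ, ∑ i, a i ^ 2 = 1 →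
      1 - Tn n t ≤ prob a t) := by
  obtain ⟨Z, hZ⟩ : ∃ Z : Set ℝ, Z = {t | 1.04 ≤ t ∧ t ≤ 1.1 ∧ Mf t ≤ Tn n t} := ⟨_, rfl⟩
  have hfn : ∀ t : ℝ, 1.1 ≤ t → t ≤ 1.826 → (n = 4 → t ≤ 1.6428) → ∀ L, MaxL n t L →
      T L t = Tn n t := by
    intro t ht ht2 hn4 L h
    rcases dichotomy h hn (by linarith) ht2 hn4 with h1 | h1
    · rw [h1]; rfl
    · exfalso
      have h2 := ge_T4 h hn (by linarith) ht2
      have h3 := Mf_lt_T4 ht ht2
      linarith
  have h11 : (1.1:ℝ) ∈ Z := by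
    rw [hZ]
    refine ⟨by norm_num, le_rfl, ?_⟩
    obtain ⟨L, h⟩ := exists_MaxL (n := n) (by omega) (t := 1.1) (by norm_num)
    rw [← hfn 1.1 le_rfl (by norm_num) (fun _ => by norm_num) L h]
    exact ge_Mf h hn (by norm_num)
  have hbd : BddBelow Z := ⟨1.04, fun t ht => by rw [hZ] at ht; exact ht.1⟩
  refine ⟨sInf Z, le_csInf ⟨_, h11⟩ (fun t ht => by rw [hZ] at ht; exact ht.1),
    csInf_le hbd h11, ?_, ?_⟩
  · intro t ht ht2 a ha
    have ht11 : t < 1.1 := lt_of_lt_of_le ht2 (csInf_le hbd h11)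
    obtain ⟨L, h⟩ := exists_MaxL (n := n) (by omega) (t := t) (by linarith)
    have h1 := le_max h (by linarith) a ha
    have h2 : T L t ≤ Mf t := by
      rcases dichotomy h hn ht (by linarith) (fun _ => by linarith) with h3 | h3
      · have h4 : T L t = Tn n t := by rw [h3]; rfl
        rw [h4]
        rcases le_total t 1.04 with h5 | h5
        · exact Tn_le hn ht h5
        · by_contra hcon
          push Not at hcon
          have : t ∈ Z := by rw [hZ]; exact ⟨h5, ht11.le, hcon.le⟩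
          have := csInf_le hbd this
          linarith
      · exact h3
    linarith
  · intro t ht ht2 hn4 a ha
    have h104 : 1.04 ≤ t := le_trans (le_csInf ⟨_, h11⟩
      (fun t ht => by rw [hZ] at ht; exact ht.1)) ht.le
    obtain ⟨L, h⟩ := exists_MaxL (n := n) (by omega) (t := t) (by linarith)
    have h1 := le_max h (by linarith) a ha
    rcases le_total t 1.1 with h5 | h5
    · obtain ⟨s, hs, hst⟩ := exists_lt_of_csInf_lt ⟨_, h11⟩ ht
      rw [hZ] at hs
      have h6 := crossing hn hs.1 hst.le h5 hs.2.2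
      have h2 : T L t ≤ Tn n t := by
        rcases dichotomy h hn (by linarith) ht2 hn4 with h3 | h3
        · rw [h3]; exact le_rfl
        · linarith
      linarith
    · rw [hfn t h5 ht2 hn4 L h] at h1
      exact h1

open FA in
/-- the answer, in terms of volumes -/
theorem answer (n : ℕ) (hn : 3 ≤ n) : ∃ t₁ t₂ : ℝ, 2 * √2 - 2 < t₁ ∧ t₁ < t₂ ∧
    ∀ t : ℝ, ∀ a : Fin n → ℝ, ∑ i, a i ^ 2 = 1 →
      ((2 * √2 - 2 < t ∧ t < t₁) →
        volume {x : Fin n → ℝ | (∀ i, |x i| ≤ 1) ∧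
          |∑ i : Fin n, (if (i : ℕ) < 2 then 1 / √2 else 0) * x i| ≤ t} ≤
        volume {x : Fin n → ℝ | (∀ i, |x i| ≤ 1) ∧ |∑ i, a i * x i| ≤ t}) ∧
      ((t₁ < t ∧ t < t₂) →
        volume {x : Fin n → ℝ | (∀ i, |x i| ≤ 1) ∧
          |∑ i : Fin n, (if (i : ℕ) < 3 then 1 / √3 else 0) * x i| ≤ t} ≤
        volume {x : Fin n → ℝ | (∀ i, |x i| ≤ 1) ∧ |∑ i, a i * x i| ≤ t}) ∧
      (t₂ < t →
        volume {x : Fin n → ℝ | (∀ i, |x i| ≤ 1) ∧
          |∑ i : Fin n, (1 / √(n : ℝ)) * x i| ≤ t} ≤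
        volume {x : Fin n → ℝ | (∀ i, |x i| ≤ 1) ∧ |∑ i, a i * x i| ≤ t}) := by
  obtain ⟨t₁, h1, h2, -, hF⟩ := first_assertion
  obtain ⟨hF1, -, hF3⟩ := hF n hn
  obtain ⟨h2a, h2b⟩ := sqrt2_b
  obtain ⟨h3a, h3b⟩ := sqrt3_b
  have h33 : √3 ^ 2 = 3 := Real.sq_sqrt (by norm_num)
  have e3 : ∀ t, 1.02 ≤ t → t ≤ √3 →
      prob (fun j : Fin n => if (j : ℕ) < 3 then 1 / √3 else 0) t = 1 - (3 - √3 * t) ^ 3 / 24 := by
    intro t ht1 ht2
    exact prob_f3 hn (by rw [div_le_iff₀ (by positivity)]; nlinarith) ht2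
  rcases eq_or_lt_of_le hn with rfl | hn4
  · -- dimension three
    refine ⟨t₁, 1.5, by linarith, by linarith, fun t a ha => ⟨?_, ?_, ?_⟩⟩
    · intro ht; exact hF1 t ht.1 ht.2.le a ha
    · intro ht
      rcases le_total t 1.02 with h | h
      · exact hF3 t ht.1.le h a ha
      · apply vol_le
        rw [e3 t h (by linarith [ht.2])]
        exact three_dim a ha h (by linarith [ht.2])
    · intro ht
      rcases le_total t 1.6 with h | h
      · apply vol_le
        have h4 : (fun _ : Fin 3 => 1 / √((3 : ℕ) : ℝ)) =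
            fun j : Fin 3 => if (j : ℕ) < 3 then 1 / √3 else 0 := by
          funext j
          rw [if_pos j.2]
          norm_num
        rw [h4, e3 t (by linarith) (by linarith)]
        exact three_dim a ha (by linarith) (by linarith)
      · refine slab_le 3 (by norm_num) t (by linarith) ?_ a ha
        norm_num
        nlinarith
  · obtain ⟨t₂, g1, g2, g3, g4⟩ := phases (n := n) hn4
    refine ⟨t₁, t₂, by linarith, by linarith, fun t a ha => ⟨?_, ?_, ?_⟩⟩
    · intro ht; exact hF1 t ht.1 ht.2.le a ha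
    · intro ht
      rcases le_total t 1.02 with h | h
      · exact hF3 t ht.1.le h a ha
      · apply vol_le
        rw [e3 t h (by linarith [ht.2])]
        exact g3 t h ht.2 a ha
    · intro ht
      by_cases hc : t ≤ 1.826 ∧ (n = 4 → t ≤ 1.6428)
      · apply vol_le
        rw [prob_fn n (by linarith)]
        exact g4 t ht hc.1 hc.2 a ha
      · refine slab_le n (by omega) t (by linarith) ?_ a ha
        have hn0 : (4:ℝ) ≤ n := by exact_mod_cast hn4
        rcases le_or_gt t 1.826 with h5 | h5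
        · have h6 : ¬ (n = 4 → t ≤ 1.6428) := fun h => hc ⟨h5, h⟩
          push Not at h6
          obtain ⟨rfl, h7⟩ := h6
          norm_num
          nlinarith
        · have h8 : 0 < 40 / (21 * ((n : ℝ) - 1)) := by
            have : 0 < (n:ℝ) - 1 := by linarith
            positivity
          nlinarith

end Pool.Agent.Helper89.SP
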