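import Pool.Agent.Helper89.SP.Defs

/-! Definitions used by the wave facts. -/

set_option autoImplicit false

open MeasureTheory Set Real Slab

namespace Pool.Agent.Helper89.SP

/-- from the node `ν` on, the pair `(p, q)` may be replaced by the pair `(c, c)` -/
def PairEx (l : List ℝ) (p q ν : ℝ) : Prop :=
  ∀ s, ν ≤ s → ∀ c, 0 ≤ c → 2 * c ^ 2 = p ^ 2 + q ^ 2 →
    AL (l ++ [p, q]) H s ≤ AL (l ++ [c, c]) H s

/-- the data of the facts M_m -/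
structure DM (m : ℕ) (l : List ℝ) (x u : ℝ) : Prop where
  hu : 0 ≤ u
  hux : u < x
  hl : ∀ e ∈ l, 0 ≤ e ∧ e ≤ u
  hsq : sq l + m * x ^ 2 + u ^ 2 = 1

/-- the data of the facts A: `(p, q, rest)`, `rest ≤ q`, `q + rest ≤ S` -/
structure DA (l : List ℝ) (p q S : ℝ) : Prop where
  hq : 0 ≤ q
  hqp : q < p
  hl : ∀ e ∈ l, 0 ≤ e ∧ e ≤ q ∧ q + e ≤ S
  hsq : sq l + p ^ 2 + q ^ 2 = 1

/-- the data of the facts B: `(p, q, r, rest)`, `rest ≤ r`, pair `(p, r)` -/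
structure DB (l : List ℝ) (p q r : ℝ) : Prop where
  hr : 0 ≤ r
  hrq : r ≤ q
  hqp : q ≤ p
  hrp : r < p
  hl : ∀ e ∈ l, 0 ≤ e ∧ e ≤ r
  hsq : sq l + p ^ 2 + q ^ 2 + r ^ 2 = 1

end Pool.Agent.Helper89.SP
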